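import Pool.Agent.W982.AT.Defs

set_option linter.unusedSectionVars false

namespace Pool.Agent.W982.AT

/-- The directed edges of an orientation. -/
def arcs {ι W : Type*} [Fintype ι] [DecidableEq W] (E : ι → W × W) (o : ι → Bool) :
    Finset (W × W) := Finset.univ.image fun i => if o i then E i else (E i).swap

section
variable {ι W : Type*} [Fintype ι] [DecidableEq ι] [Fintype W] [DecidableEq W]

/-- The arc of an edge. -/
def arc {ι W : Type*} (E : ι → W × W) (o : ι → Bool) (i : ι) : W × W :=
  if o i then E i else (E i).swap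

theorem arc_inj {ι W : Type*} (E : ι → W × W) (hinj : Function.Injective E)
    (hsw : ∀ i j, E i ≠ (E j).swap) (o : ι → Bool) : Function.Injective (arc E o) := by
  intro i j h
  unfold arc at h
  split_ifs at h
  · exact hinj h
  · exact absurd h (hsw i j)
  · exact absurd h.symm (hsw j i)
  · exact hinj (Prod.swap_injective h)

/-- The orientation flipped on a set of edges. -/
def flp {ι : Type*} [DecidableEq ι] (o : ι → Bool) (A : Finset ι) (i : ι) : Bool :=
  if i ∈ A then !o i else o i

theorem flp_bij (o : ι → Bool) : Function.Bijective (flp o) := by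
  constructor
  · intro A B h
    ext i
    have := congrFun h i
    unfold flp at this
    by_cases h1 : i ∈ A <;> by_cases h2 : i ∈ B <;> simp_all
  · intro o'
    refine ⟨Finset.univ.filter fun i => o' i ≠ o i, ?_⟩
    funext i
    unfold flp
    by_cases h : o' i = o i
    · simp [h]
    · simp only [Finset.mem_filter, Finset.mem_univ, true_and, ne_eq, h, not_false_eq_true,
        if_true]
      cases h1 : o i <;> cases h2 : o' i <;> simp_all

theorem tl_flp (E : ι → W × W) (o : ι → Bool) (A : Finset ι) (i : ι) :
    tl E (flp o A) i = if i ∈ A then (arc E o i).2 else (arc E o i).1 := by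
  unfold tl flp arc
  by_cases h : i ∈ A <;> cases h1 : o i <;> simp [h]

theorem tl_arc (E : ι → W × W) (o : ι → Bool) (i : ι) :
    tl E o i = (arc E o i).1 := by
  unfold tl arc
  cases h1 : o i <;> simp

theorem sg_flp (o : ι → Bool) (A : Finset ι) : sg (flp o A) = sg o * (-1) ^ A.card := by
  unfold sg
  have h : (-1 : ℤ) ^ A.card = ∏ i, if i ∈ A then (-1 : ℤ) else 1 := by
    rw [Finset.prod_ite_mem, Finset.univ_inter, Finset.prod_const]
  rw [h, ← Finset.prod_mul_distrib]
  refine Finset.prod_congr rfl fun i _ => ?_
  unfold flp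
  by_cases h : i ∈ A <;> cases h1 : o i <;> simp [h]

theorem sg_sq (o : ι → Bool) : sg o * sg o = 1 := by
  unfold sg
  rw [← Finset.prod_mul_distrib]
  refine Finset.prod_eq_one fun i _ => ?_
  cases o i <;> simp

theorem od_flp (E : ι → W × W) (hinj : Function.Injective E)
    (hsw : ∀ i j, E i ≠ (E j).swap) (o : ι → Bool) (A : Finset ι) (v : W) :
    od E (flp o A) v + outDeg (A.image (arc E o)) v = od E o v + inDeg (A.image (arc E o)) v := by
  have hi := arc_inj E hinj hsw o
  have h1 : outDeg (A.image (arc E o)) v = ∑ i ∈ A, if (arc E o i).1 = v then 1 else 0 := by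
    unfold outDeg
    rw [Finset.filter_image, Finset.card_image_of_injective _ hi, Finset.card_filter]
  have h2 : inDeg (A.image (arc E o)) v = ∑ i ∈ A, if (arc E o i).2 = v then 1 else 0 := by
    unfold inDeg
    rw [Finset.filter_image, Finset.card_image_of_injective _ hi, Finset.card_filter]
  have h3 : od E o v = ∑ i, if (arc E o i).1 = v then 1 else 0 := by
    unfold od
    simp only [tl_arc]
    rw [Finset.card_filter]
  have h4 : od E (flp o A) v = ∑ i, if (if i ∈ A then (arc E o i).2 else (arc E o i).1) = v
      then 1 else 0 := by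
    unfold od
    simp only [tl_flp]
    rw [Finset.card_filter]
  rw [h1, h2, h3, h4, ← Finset.sum_add_sum_compl A, ← Finset.sum_add_sum_compl A
    (fun i => if (arc E o i).1 = v then 1 else 0)]
  have h5 : (∑ i ∈ A, if (if i ∈ A then (arc E o i).2 else (arc E o i).1) = v
      then 1 else 0) = ∑ i ∈ A, if (arc E o i).2 = v then 1 else 0 :=
    Finset.sum_congr rfl fun i hiA => by rw [if_pos hiA]
  have h6 : (∑ i ∈ Aᶜ, if (if i ∈ A then (arc E o i).2 else (arc E o i).1) = v
      then 1 else 0) = ∑ i ∈ Aᶜ, if (arc E o i).1 = v then 1 else 0 :=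
    Finset.sum_congr rfl fun i hiA => by rw [if_neg (Finset.mem_compl.1 hiA)]
  rw [h5, h6]
  ring

theorem euler_iff (E : ι → W × W) (hinj : Function.Injective E)
    (hsw : ∀ i j, E i ≠ (E j).swap) (o : ι → Bool) (A : Finset ι) :
    IsEulerian (A.image (arc E o)) ↔ ∀ v, od E (flp o A) v = od E o v := by
  unfold IsEulerian
  refine forall_congr' fun v => ?_
  have := od_flp E hinj hsw o A v
  constructor <;> intro h <;> omega

open Classical in
theorem EE_sub_EO_sum (D : Finset (W × W)) :
    (EE D : ℤ) - EO D = ∑ F ∈ D.powerset, if IsEulerian F then (-1) ^ F.card else 0 := by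
  unfold EE EO
  rw [Finset.card_filter, Finset.card_filter]
  push_cast
  rw [← Finset.sum_sub_distrib]
  refine Finset.sum_congr rfl fun F _ => ?_
  by_cases h : IsEulerian F
  · rcases Nat.even_or_odd F.card with h1 | h1
    · have h2 : ¬ Odd F.card := by rwa [Nat.not_odd_iff_even]
      simp [h, h1, h2]
    · have h2 : ¬ Even F.card := by rwa [Nat.not_even_iff_odd]
      simp [h, h1, h2]
  · simp [h]

theorem EE_sub_EO (E : ι → W × W) (hinj : Function.Injective E)
    (hsw : ∀ i j, E i ≠ (E j).swap) (o : ι → Bool) :
    (EE (arcs E o) : ℤ) - EO (arcs E o) =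
      sg o * ∑ o' : ι → Bool, if ∀ v, od E o' v = od E o v then sg o' else 0 := by
  classical
  have hi := arc_inj E hinj hsw o
  rw [EE_sub_EO_sum]
  have h1 : (∑ o' : ι → Bool, if ∀ v, od E o' v = od E o v then sg o' else 0) =
      ∑ A : Finset ι, if IsEulerian (A.image (arc E o)) then sg o * (-1) ^ A.card else 0 := by
    rw [← (flp_bij o).sum_comp]
    refine Finset.sum_congr rfl fun A _ => ?_
    rw [sg_flp]
    by_cases h : IsEulerian (A.image (arc E o))
    · rw [if_pos h, if_pos ((euler_iff E hinj hsw o A).1 h)]
    · rw [if_neg h, if_neg (fun h' => h ((euler_iff E hinj hsw o A).2 h'))]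
  rw [h1, Finset.mul_sum]
  have h2 : (arcs E o).powerset = (Finset.univ : Finset (Finset ι)).image
      (fun A => A.image (arc E o)) := by
    ext F
    simp only [Finset.mem_powerset, Finset.mem_image, Finset.mem_univ, true_and]
    constructor
    · intro h
      obtain ⟨A, _, hA⟩ := Finset.subset_image_iff.1 h
      exact ⟨A, hA⟩
    · rintro ⟨A, rfl⟩
      exact Finset.image_subset_image (Finset.subset_univ _)
  rw [h2, Finset.sum_image (fun A _ B _ h => Finset.image_injective hi h)]
  refine Finset.sum_congr rfl fun A _ => ?_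
  by_cases h : IsEulerian (A.image (arc E o))
  · rw [if_pos h, if_pos h, Finset.card_image_of_injective _ hi, ← mul_assoc, sg_sq, one_mul]
  · rw [if_neg h, if_neg h, mul_zero]

end

end Pool.Agent.W982.AT
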